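import Mathlib

/-!
Uniform equivalences between subsets of normed spaces, positively homogeneous
norm preserving equivalences between cones, and the reduction of the
sphere/ball problem to cones.
-/

set_option autoImplicit false

open Set Metric Filter Topology

namespace Pool.Agent.helper32

variable {X Z W Y : Type*}
  [NormedAddCommGroup X] [NormedSpace ℝ X] [NormedAddCommGroup Z] [NormedSpace ℝ Z]
  [NormedAddCommGroup W] [NormedSpace ℝ W] [NormedAddCommGroup Y] [NormedSpace ℝ Y]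

/-- `A` and `B` are uniformly homeomorphic, in terms of total functions. -/
def UEquivOn {X Z : Type*} [UniformSpace X] [UniformSpace Z] (A : Set X) (B : Set Z) : Prop :=
  ∃ (F : X → Z) (G : Z → X), MapsTo F A B ∧ MapsTo G B A ∧ UniformContinuousOn F A ∧
    UniformContinuousOn G B ∧ (∀ x ∈ A, G (F x) = x) ∧ (∀ z ∈ B, F (G z) = z)

namespace UEquivOn

section
variable {X Z W : Type*} [UniformSpace X] [UniformSpace Z] [UniformSpace W]

theorem refl (A : Set X) : UEquivOn A A :=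
  ⟨id, id, mapsTo_id _, mapsTo_id _, uniformContinuous_id.uniformContinuousOn,
    uniformContinuous_id.uniformContinuousOn, fun _ _ => rfl, fun _ _ => rfl⟩

theorem symm {A : Set X} {B : Set Z} (h : UEquivOn A B) : UEquivOn B A := by
  obtain ⟨F, G, h1, h2, h3, h4, h5, h6⟩ := h
  exact ⟨G, F, h2, h1, h4, h3, h6, h5⟩

theorem trans {A : Set X} {B : Set Z} {C : Set W} (h : UEquivOn A B) (h' : UEquivOn B C) :
    UEquivOn A C := by
  obtain ⟨F, G, h1, h2, h3, h4, h5, h6⟩ := h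
  obtain ⟨F', G', h1', h2', h3', h4', h5', h6'⟩ := h'
  refine ⟨F' ∘ F, G ∘ G', h1'.comp h1, h2.comp h2', h3'.comp h3 h1, h4.comp h4' h2', ?_, ?_⟩
  · intro x hx
    simp only [Function.comp]
    rw [h5' _ (h1 hx), h5 _ hx]
  · intro x hx
    simp only [Function.comp]
    rw [h6 _ (h2' hx), h6' _ hx]

theorem toUniformEquiv {A : Set X} {B : Set Z} (h : UEquivOn A B) : Nonempty (A ≃ᵤ B) := by
  obtain ⟨F, G, h1, h2, h3, h4, h5, h6⟩ := h
  refine ⟨{ toFun := MapsTo.restrict F A B h1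
            invFun := MapsTo.restrict G B A h2
            left_inv := ?_
            right_inv := ?_
            uniformContinuous_toFun := ?_
            uniformContinuous_invFun := ?_ }⟩
  · rintro ⟨x, hx⟩
    exact Subtype.ext (h5 x hx)
  · rintro ⟨x, hx⟩
    exact Subtype.ext (h6 x hx)
  · have := uniformContinuousOn_iff_restrict.1 h3
    exact this.subtype_mk _
  · have := uniformContinuousOn_iff_restrict.1 h4
    exact this.subtype_mk _

theorem ofUniformEquiv [Inhabited X] [Inhabited Z] {A : Set X} {B : Set Z}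
    (e : A ≃ᵤ B) : UEquivOn A B := by
  classical
  refine ⟨fun x => if hx : x ∈ A then (e ⟨x, hx⟩ : Z) else default,
    fun z => if hz : z ∈ B then (e.symm ⟨z, hz⟩ : X) else default, ?_, ?_, ?_, ?_, ?_, ?_⟩
  · intro x hx
    simp [hx]
  · intro x hx
    simp [hx]
  · rw [uniformContinuousOn_iff_restrict]
    have : (A.domRestrict fun x => if hx : x ∈ A then (e ⟨x, hx⟩ : Z) else default)
        = fun x : A => (e x : Z) := by
      funext x
      simp [Set.domRestrict]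
    rw [this]
    exact uniformContinuous_subtype_val.comp e.uniformContinuous
  · rw [uniformContinuousOn_iff_restrict]
    have : (B.domRestrict fun z => if hz : z ∈ B then (e.symm ⟨z, hz⟩ : X) else default)
        = fun x : B => (e.symm x : X) := by
      funext x
      simp [Set.domRestrict]
    rw [this]
    exact uniformContinuous_subtype_val.comp e.symm.uniformContinuous
  · intro x hx
    simp [hx]
  · intro x hx
    simp [hx]
end

end UEquivOn

/-- `K` is stable under multiplication by nonnegative reals. -/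
def IsCone (K : Set X) : Prop := ∀ x ∈ K, ∀ r : ℝ, 0 ≤ r → r • x ∈ K

/-- Positively homogeneous, norm preserving maps, uniformly continuous on the unit ball. -/
structure ConeMap (K : Set X) (L : Set Z) (F : X → Z) : Prop where
  maps : ∀ x ∈ K, F x ∈ L
  homog : ∀ x ∈ K, ∀ r : ℝ, 0 ≤ r → F (r • x) = r • F x
  norm : ∀ x ∈ K, ‖F x‖ = ‖x‖
  uc : UniformContinuousOn F (K ∩ closedBall 0 1)

/-- Homogeneous norm preserving uniform equivalence of cones. -/
def ConeEquiv (K : Set X) (L : Set Z) : Prop :=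
  ∃ (F : X → Z) (G : Z → X), ConeMap K L F ∧ ConeMap L K G ∧ (∀ x ∈ K, G (F x) = x) ∧
    (∀ z ∈ L, F (G z) = z)

theorem ConeMap.mapsBall {K : Set X} {L : Set Z} {F : X → Z} (h : ConeMap K L F) :
    MapsTo F (K ∩ closedBall 0 1) (L ∩ closedBall 0 1) := by
  rintro x ⟨hx, hx1⟩
  refine ⟨h.maps x hx, ?_⟩
  simp only [mem_closedBall, dist_zero_right] at *
  rw [h.norm x hx]; exact hx1

theorem ConeMap.mapsSphere {K : Set X} {L : Set Z} {F : X → Z} (h : ConeMap K L F) :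
    MapsTo F (K ∩ sphere 0 1) (L ∩ sphere 0 1) := by
  rintro x ⟨hx, hx1⟩
  refine ⟨h.maps x hx, ?_⟩
  simp only [mem_sphere, dist_zero_right] at *
  rw [h.norm x hx]; exact hx1

theorem ConeMap.comp {K : Set X} {L : Set Z} {M : Set W} {F : X → Z} {F' : Z → W}
    (h : ConeMap K L F) (h' : ConeMap L M F') : ConeMap K M (F' ∘ F) where
  maps x hx := h'.maps _ (h.maps x hx)
  homog x hx r hr := by
    simp only [Function.comp]
    rw [h.homog x hx r hr, h'.homog _ (h.maps x hx) r hr]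
  norm x hx := by
    simp only [Function.comp]
    rw [h'.norm _ (h.maps x hx), h.norm x hx]
  uc := h'.uc.comp h.uc h.mapsBall

namespace ConeEquiv

theorem refl (K : Set X) : ConeEquiv K K := by
  have : ConeMap K K id := ⟨fun _ h => h, fun _ _ _ _ => rfl, fun _ _ => rfl,
    uniformContinuous_id.uniformContinuousOn⟩
  exact ⟨id, id, this, this, fun _ _ => rfl, fun _ _ => rfl⟩

theorem symm {K : Set X} {L : Set Z} (h : ConeEquiv K L) : ConeEquiv L K := by
  obtain ⟨F, G, h1, h2, h3, h4⟩ := h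
  exact ⟨G, F, h2, h1, h4, h3⟩

theorem trans {K : Set X} {L : Set Z} {M : Set W} (h : ConeEquiv K L) (h' : ConeEquiv L M) :
    ConeEquiv K M := by
  obtain ⟨F, G, h1, h2, h3, h4⟩ := h
  obtain ⟨F', G', h1', h2', h3', h4'⟩ := h'
  refine ⟨F' ∘ F, G ∘ G', h1.comp h1', h2'.comp h2, ?_, ?_⟩
  · intro x hx
    simp only [Function.comp]
    rw [h3' _ (h1.maps x hx), h3 x hx]
  · intro x hx
    simp only [Function.comp]
    rw [h4 _ (h2'.maps x hx), h4' x hx]

theorem sphere {K : Set X} {L : Set Z} (h : ConeEquiv K L) :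
    UEquivOn (K ∩ sphere 0 1) (L ∩ sphere 0 1) := by
  obtain ⟨F, G, h1, h2, h3, h4⟩ := h
  exact ⟨F, G, h1.mapsSphere, h2.mapsSphere,
    h1.uc.mono (inter_subset_inter_right _ sphere_subset_closedBall),
    h2.uc.mono (inter_subset_inter_right _ sphere_subset_closedBall),
    fun x hx => h3 x hx.1, fun x hx => h4 x hx.1⟩

theorem ball {K : Set X} {L : Set Z} (h : ConeEquiv K L) :
    UEquivOn (K ∩ closedBall 0 1) (L ∩ closedBall 0 1) := by
  obtain ⟨F, G, h1, h2, h3, h4⟩ := h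
  exact ⟨F, G, h1.mapsBall, h2.mapsBall, h1.uc, h2.uc,
    fun x hx => h3 x hx.1, fun x hx => h4 x hx.1⟩

end ConeEquiv

theorem ConeMap.prod {K : Set X} {L : Set Z} {K' : Set Y} {L' : Set W} {F : X → Z} {F' : Y → W}
    (h : ConeMap K L F) (h' : ConeMap K' L' F') :
    ConeMap (K ×ˢ K') (L ×ˢ L') (Prod.map F F') where
  maps := by
    rintro ⟨x, y⟩ ⟨hx, hy⟩
    exact ⟨h.maps x hx, h'.maps y hy⟩
  homog := by
    rintro ⟨x, y⟩ ⟨hx, hy⟩ r hr
    simp only [Prod.smul_mk, Prod.map]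
    rw [h.homog x hx r hr, h'.homog y hy r hr]
  norm := by
    rintro ⟨x, y⟩ ⟨hx, hy⟩
    simp only [Prod.map, Prod.norm_def]
    rw [h.norm x hx, h'.norm y hy]
  uc := by
    have hF := h.uc
    have hF' := h'.uc
    rw [Metric.uniformContinuousOn_iff] at *
    intro ε hε
    obtain ⟨δ, hδ, H⟩ := hF ε hε
    obtain ⟨δ', hδ', H'⟩ := hF' ε hε
    refine ⟨min δ δ', lt_min hδ hδ', ?_⟩
    rintro ⟨x, y⟩ ⟨⟨hx, hy⟩, hxy⟩ ⟨x', y'⟩ ⟨⟨hx', hy'⟩, hxy'⟩ hd
    simp only [mem_closedBall, dist_zero_right, Prod.norm_def, sup_le_iff] at hxy hxy'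
    simp only [Prod.dist_eq, max_lt_iff, lt_min_iff, Prod.map] at hd ⊢
    exact ⟨H x ⟨hx, by simpa using hxy.1⟩ x' ⟨hx', by simpa using hxy'.1⟩ hd.1.1,
      H' y ⟨hy, by simpa using hxy.2⟩ y' ⟨hy', by simpa using hxy'.2⟩ hd.2.2⟩

theorem ConeEquiv.prod {K : Set X} {L : Set Z} {K' : Set Y} {L' : Set W}
    (h : ConeEquiv K L) (h' : ConeEquiv K' L') : ConeEquiv (K ×ˢ K') (L ×ˢ L') := by
  obtain ⟨F, G, h1, h2, h3, h4⟩ := h
  obtain ⟨F', G', h1', h2', h3', h4'⟩ := h'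
  refine ⟨Prod.map F F', Prod.map G G', h1.prod h1', h2.prod h2', ?_, ?_⟩
  · rintro ⟨x, y⟩ ⟨hx, hy⟩
    simp [h3 x hx, h3' y hy]
  · rintro ⟨x, y⟩ ⟨hx, hy⟩
    simp [h4 x hx, h4' y hy]

theorem ConeEquiv.ofIsometry (e : X ≃ₗᵢ[ℝ] Z) {K : Set X} {L : Set Z}
    (h : ∀ x, x ∈ K ↔ e x ∈ L) : ConeEquiv K L := by
  refine ⟨e, e.symm, ⟨fun x hx => (h x).1 hx, fun x _ r _ => by simp, fun x _ => by simp,
    e.isometry.uniformContinuous.uniformContinuousOn⟩,
    ⟨fun x hx => (h _).2 (by simpa using hx), fun x _ r _ => by simp, fun x _ => by simp,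
    e.symm.isometry.uniformContinuous.uniformContinuousOn⟩, fun x _ => by simp,
    fun x _ => by simp⟩

/-- The normalisation map is Lipschitz away from zero. -/
theorem norm_normalize_sub_le {a b : X} (ha : a ≠ 0) (hb : b ≠ 0) :
    ‖(‖a‖⁻¹ • a) - (‖b‖⁻¹ • b)‖ ≤ 2 * ‖a - b‖ / ‖a‖ := by
  have ha' : 0 < ‖a‖ := norm_pos_iff.2 ha
  have hb' : 0 < ‖b‖ := norm_pos_iff.2 hb
  have h1 : (‖a‖⁻¹ • a) - (‖b‖⁻¹ • b) = ‖a‖⁻¹ • (a - b) + (‖a‖⁻¹ - ‖b‖⁻¹) • b := by
    rw [smul_sub, sub_smul]; abel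
  have h2 : ‖(‖a‖⁻¹ - ‖b‖⁻¹) • b‖ ≤ ‖a - b‖ / ‖a‖ := by
    rw [norm_smul, Real.norm_eq_abs]
    have : ‖a‖⁻¹ - ‖b‖⁻¹ = (‖b‖ - ‖a‖) / (‖a‖ * ‖b‖) := by
      field_simp
    rw [this, abs_div, abs_of_pos (mul_pos ha' hb')]
    have h3 : |‖b‖ - ‖a‖| ≤ ‖a - b‖ := by
      rw [abs_sub_comm]; exact abs_norm_sub_norm_le a b
    have : |‖b‖ - ‖a‖| / (‖a‖ * ‖b‖) * ‖b‖ = |‖b‖ - ‖a‖| / ‖a‖ := by
      field_simp
    rw [this]
    gcongr
  rw [h1]
  calc _ ≤ ‖‖a‖⁻¹ • (a - b)‖ + ‖(‖a‖⁻¹ - ‖b‖⁻¹) • b‖ := norm_add_le _ _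
    _ ≤ ‖a - b‖ / ‖a‖ + ‖a - b‖ / ‖a‖ := by
        gcongr
        rw [norm_smul, norm_inv, norm_norm, inv_mul_eq_div]
    _ = 2 * ‖a - b‖ / ‖a‖ := by ring

theorem norm_normalize {a : X} (ha : a ≠ 0) : ‖‖a‖⁻¹ • a‖ = 1 := by
  rw [norm_smul, norm_inv, norm_norm, inv_mul_cancel₀ (norm_ne_zero_iff.2 ha)]

open Classical in
/-- Homogeneous extension of a map defined on the unit sphere. -/
noncomputable def homExt (f : X → Z) (x : X) : Z := ‖x‖ • f (‖x‖⁻¹ • x)

theorem homExt_coneMap {K : Set X} {L : Set Z} (hK : IsCone K) (hL : IsCone L) (hL0 : (0 : Z) ∈ L)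
    {f : X → Z} (hf : MapsTo f (K ∩ sphere 0 1) (L ∩ sphere 0 1))
    (huc : UniformContinuousOn f (K ∩ sphere 0 1)) : ConeMap K L (homExt f) := by
  have hmem : ∀ x ∈ K, x ≠ 0 → ‖x‖⁻¹ • x ∈ K ∩ sphere (0 : X) 1 := by
    intro x hx hx0
    refine ⟨hK x hx _ (by positivity), ?_⟩
    simp only [mem_sphere, dist_zero_right]
    exact norm_normalize hx0
  have hnorm : ∀ x ∈ K, x ≠ 0 → ‖f (‖x‖⁻¹ • x)‖ = 1 := by
    intro x hx hx0
    have := (hf (hmem x hx hx0)).2
    simpa using this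
  have hN : ∀ x ∈ K, ‖homExt f x‖ = ‖x‖ := by
    intro x hx
    by_cases hx0 : x = 0
    · simp [homExt, hx0]
    · rw [homExt, norm_smul, norm_norm, hnorm x hx hx0, mul_one]
  refine ⟨?_, ?_, hN, ?_⟩
  · intro x hx
    by_cases hx0 : x = 0
    · simp [homExt, hx0, hL0]
    · exact hL _ (hf (hmem x hx hx0)).1 _ (norm_nonneg _)
  · intro x hx r hr
    rcases hr.eq_or_lt with rfl | hr
    · simp [homExt]
    · simp only [homExt, norm_smul, Real.norm_eq_abs, abs_of_pos hr, mul_inv, smul_smul]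
      congr 2
      congr 1
      field_simp
  · rw [Metric.uniformContinuousOn_iff] at *
    intro ε hε
    obtain ⟨δ, hδ, H⟩ := huc (ε / 2) (by positivity)
    refine ⟨min (ε / 4) (δ * (ε / 4) / 4), by positivity, ?_⟩
    rintro x ⟨hx, hx1⟩ y ⟨hy, hy1⟩ hxy
    simp only [mem_closedBall, dist_eq_norm, lt_min_iff, sub_zero] at *
    by_cases hs : ‖x‖ < ε / 4
    · have hy' : ‖y‖ < ε / 2 := by
        have := norm_sub_norm_le y x
        rw [norm_sub_rev] at this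
        linarith [hxy.1]
      calc ‖homExt f x - homExt f y‖ ≤ ‖homExt f x‖ + ‖homExt f y‖ := norm_sub_le _ _
        _ = ‖x‖ + ‖y‖ := by rw [hN x hx, hN y hy]
        _ < ε := by linarith
    · push Not at hs
      have hx0 : x ≠ 0 := by
        rintro rfl
        simp at hs
        linarith
      by_cases hy0 : y = 0
      · subst hy0
        simp only [sub_zero] at hxy
        linarith [hxy.1]
      have hxp : 0 < ‖x‖ := norm_pos_iff.2 hx0
      have e1 : ‖(‖x‖⁻¹ • x) - (‖y‖⁻¹ • y)‖ < δ := by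
        refine (norm_normalize_sub_le hx0 hy0).trans_lt ?_
        rw [div_lt_iff₀ hxp]
        have : ‖x - y‖ < δ * (ε / 4) / 4 := hxy.2
        have h3 : δ * (ε / 4) ≤ δ * ‖x‖ := by gcongr
        have h4 : 0 < δ * (ε / 4) := by positivity
        linarith
      have e2 := H _ (hmem x hx hx0) _ (hmem y hy hy0) e1
      have e3 : homExt f x - homExt f y
          = (‖x‖ - ‖y‖) • f (‖x‖⁻¹ • x) + ‖y‖ • (f (‖x‖⁻¹ • x) - f (‖y‖⁻¹ • y)) := by
        simp only [homExt, sub_smul, smul_sub]; abel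
      rw [e3]
      calc _ ≤ ‖(‖x‖ - ‖y‖) • f (‖x‖⁻¹ • x)‖ + ‖‖y‖ • (f (‖x‖⁻¹ • x) - f (‖y‖⁻¹ • y))‖ :=
            norm_add_le _ _
        _ ≤ ‖x - y‖ * 1 + 1 * ‖f (‖x‖⁻¹ • x) - f (‖y‖⁻¹ • y)‖ := by
            rw [norm_smul, norm_smul, hnorm x hx hx0, norm_norm, Real.norm_eq_abs]
            gcongr
            exact abs_norm_sub_norm_le x y
        _ < ε := by linarith [hxy.1]

theorem homExt_eq_of_sphere {f : X → Z} {x : X} (hx : x ∈ sphere (0 : X) 1) :
    homExt f x = f x := by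
  simp only [mem_sphere, dist_zero_right] at hx
  simp [homExt, hx]

theorem ConeEquiv.ofSphere {K : Set X} {L : Set Z} (hK : IsCone K) (hL : IsCone L)
    (hK0 : (0 : X) ∈ K) (hL0 : (0 : Z) ∈ L)
    (h : UEquivOn (K ∩ Metric.sphere 0 1) (L ∩ Metric.sphere 0 1)) : ConeEquiv K L := by
  obtain ⟨F, G, h1, h2, h3, h4, h5, h6⟩ := h
  have c1 := homExt_coneMap hK hL hL0 h1 h3
  have c2 := homExt_coneMap hL hK hK0 h2 h4
  refine ⟨homExt F, homExt G, c1, c2, ?_, ?_⟩
  · intro x hx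
    by_cases hx0 : x = 0
    · simp [homExt, hx0]
    have hxp : 0 < ‖x‖ := norm_pos_iff.2 hx0
    have hm : ‖x‖⁻¹ • x ∈ K ∩ Metric.sphere (0 : X) 1 :=
      ⟨hK x hx _ (by positivity), by simpa using norm_normalize hx0⟩
    have e1 : homExt F x = ‖x‖ • F (‖x‖⁻¹ • x) := rfl
    rw [e1, c2.homog _ (h1 hm).1 _ hxp.le, homExt_eq_of_sphere (h1 hm).2, h5 _ hm, smul_smul,
      mul_inv_cancel₀ hxp.ne', one_smul]
  · intro x hx
    by_cases hx0 : x = 0
    · simp [homExt, hx0]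
    have hxp : 0 < ‖x‖ := norm_pos_iff.2 hx0
    have hm : ‖x‖⁻¹ • x ∈ L ∩ Metric.sphere (0 : Z) 1 :=
      ⟨hL x hx _ (by positivity), by simpa using norm_normalize hx0⟩
    have e1 : homExt G x = ‖x‖ • G (‖x‖⁻¹ • x) := rfl
    rw [e1, c1.homog _ (h2 hm).1 _ hxp.le, homExt_eq_of_sphere (h2 hm).2, h6 _ hm, smul_smul,
      mul_inv_cancel₀ hxp.ne', one_smul]

end Pool.Agent.helper32
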