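import Mathlib
import Pool.Agent.helper32.Cone

/-!
The property `SB X` (unit sphere uniformly homeomorphic to the unit ball), its
characterisation through half spaces, and its permanence properties.
-/

set_option autoImplicit false

open Set Metric Filter Topology

namespace Pool.Agent.helper32

variable {X Z W Y : Type*}
  [NormedAddCommGroup X] [NormedSpace ℝ X] [NormedAddCommGroup Z] [NormedSpace ℝ Z]
  [NormedAddCommGroup W] [NormedSpace ℝ W] [NormedAddCommGroup Y] [NormedSpace ℝ Y]

theorem uc_of_lip {X Z : Type*} [PseudoMetricSpace X] [PseudoMetricSpace Z] {A : Set X}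
    {f : X → Z} (C : ℝ) (h : ∀ x ∈ A, ∀ y ∈ A, dist (f x) (f y) ≤ C * dist x y) :
    UniformContinuousOn f A := by
  have h' : LipschitzOnWith (Real.toNNReal (max C 0)) f A := by
    refine LipschitzOnWith.of_dist_le_mul ?_
    intro x hx y hy
    refine (h x hx y hy).trans ?_
    gcongr
    exact (le_max_left C 0).trans (Real.le_coe_toNNReal _)
  exact h'.uniformContinuousOn

/-- The unit sphere of `X` is uniformly homeomorphic to the unit ball. -/
def SB (X : Type*) [NormedAddCommGroup X] [NormedSpace ℝ X] : Prop :=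
  UEquivOn (sphere (0 : X) 1) (closedBall (0 : X) 1)

/-- The closed half space `[0, ∞) × X`. -/
def HS (X : Type*) : Set (ℝ × X) := {p | 0 ≤ p.1}

theorem HS_isCone : IsCone (HS X) := by
  rintro ⟨t, x⟩ hx r hr
  simp only [HS, mem_ofPred_eq, Prod.smul_mk, smul_eq_mul] at *
  positivity

/-- The upper hemisphere is the ball. -/
theorem hemisphere : UEquivOn (HS X ∩ sphere 0 1) (closedBall (0 : X) 1) := by
  refine ⟨fun p => (1 - p.1 / 2) • p.2,
    fun b => (min 1 (2 - 2 * ‖b‖), (max ‖b‖ (1 / 2))⁻¹ • b), ?_, ?_, ?_, ?_, ?_, ?_⟩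
  · rintro ⟨t, w⟩ ⟨ht, hp⟩
    simp only [HS, mem_ofPred_eq, mem_sphere, dist_zero_right, Prod.norm_def, Real.norm_eq_abs]
      at ht hp
    simp only [mem_closedBall, dist_zero_right, norm_smul, Real.norm_eq_abs]
    have h1 : t ≤ 1 := by
      have := le_max_left |t| ‖w‖
      rw [hp] at this
      exact (le_abs_self t).trans this
    have h2 : ‖w‖ ≤ 1 := by
      have := le_max_right |t| ‖w‖
      rwa [hp] at this
    have h3 : |1 - t / 2| ≤ 1 := by
      rw [abs_le]; constructor <;> linarith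
    calc |1 - t / 2| * ‖w‖ ≤ 1 * 1 := by gcongr
      _ = 1 := one_mul 1
  · intro b hb
    simp only [mem_closedBall, dist_zero_right] at hb
    refine ⟨?_, ?_⟩
    · simp only [HS, mem_ofPred_eq]
      exact le_min zero_le_one (by linarith)
    · simp only [mem_sphere, dist_zero_right, Prod.norm_def, Real.norm_eq_abs, norm_smul, norm_inv]
      rcases le_total ‖b‖ (1 / 2) with h | h
      · have e1 : min 1 (2 - 2 * ‖b‖) = 1 := min_eq_left (by linarith)
        have e2 : max ‖b‖ (1 / 2) = 1 / 2 := max_eq_right h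
        rw [e1, e2]
        have : |(1 / 2 : ℝ)|⁻¹ * ‖b‖ ≤ 1 := by
          rw [abs_of_pos (by norm_num : (0 : ℝ) < 1 / 2)]
          norm_num
          linarith
        rw [abs_one, max_eq_left this]
      · have e1 : min 1 (2 - 2 * ‖b‖) = 2 - 2 * ‖b‖ := min_eq_right (by linarith)
        have e2 : max ‖b‖ (1 / 2) = ‖b‖ := max_eq_left h
        have hb0 : ‖b‖ ≠ 0 := by
          intro h0; rw [h0] at h; norm_num at h
        rw [e1, e2, abs_norm, inv_mul_cancel₀ hb0]
        apply max_eq_right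
        rw [abs_le]; constructor <;> linarith
  · refine uc_of_lip 2 ?_
    rintro ⟨t, w⟩ ⟨ht, hp⟩ ⟨t', w'⟩ ⟨ht', hp'⟩
    simp only [HS, mem_ofPred_eq, mem_sphere, dist_zero_right, Prod.norm_def, Real.norm_eq_abs]
      at ht hp ht' hp'
    have h1 : t ≤ 1 := by
      have := le_max_left |t| ‖w‖
      rw [hp] at this
      exact (le_abs_self t).trans this
    have h2 : ‖w'‖ ≤ 1 := by
      have := le_max_right |t'| ‖w'‖
      rwa [hp'] at this
    have h3 : |1 - t / 2| ≤ 1 := by
      rw [abs_le]; constructor <;> linarith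
    have e : (1 - t / 2) • w - (1 - t' / 2) • w'
        = (1 - t / 2) • (w - w') + (-(t - t') / 2) • w' := by
      module
    have d1 : ‖w - w'‖ ≤ dist (t, w) (t', w') := by
      rw [Prod.dist_eq, ← dist_eq_norm]; exact le_max_right _ _
    have d2 : |t - t'| ≤ dist (t, w) (t', w') := by
      rw [Prod.dist_eq, ← Real.dist_eq]; exact le_max_left _ _
    rw [dist_eq_norm, e]
    calc _ ≤ ‖(1 - t / 2) • (w - w')‖ + ‖(-(t - t') / 2) • w'‖ := norm_add_le _ _
      _ = |1 - t / 2| * ‖w - w'‖ + |t - t'| / 2 * ‖w'‖ := by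
          rw [norm_smul, norm_smul, Real.norm_eq_abs, Real.norm_eq_abs, abs_div, abs_neg]
          norm_num
      _ ≤ 1 * dist (t, w) (t', w') + dist (t, w) (t', w') / 2 * 1 := by gcongr
      _ ≤ 2 * dist (t, w) (t', w') := by
          have : 0 ≤ dist (t, w) (t', w') := dist_nonneg
          linarith
  · refine uc_of_lip 4 ?_
    intro b hb c hc
    have hd : |‖b‖ - ‖c‖| ≤ dist b c := by rw [dist_eq_norm]; exact abs_norm_sub_norm_le b c
    rw [Prod.dist_eq]
    apply max_le
    · rw [Real.dist_eq]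
      have h1 : |min 1 (2 - 2 * ‖b‖) - min 1 (2 - 2 * ‖c‖)| ≤ |(2 - 2 * ‖b‖) - (2 - 2 * ‖c‖)| := by
        have := abs_min_sub_min_le_max (1 : ℝ) (2 - 2 * ‖b‖) 1 (2 - 2 * ‖c‖)
        simpa using this
      refine h1.trans ?_
      have : (2 - 2 * ‖b‖) - (2 - 2 * ‖c‖) = -(2 * (‖b‖ - ‖c‖)) := by ring
      rw [this, abs_neg, abs_mul]
      norm_num
      have : 0 ≤ dist b c := dist_nonneg
      linarith
    · set m := max ‖b‖ (1 / 2) with hm
      set n := max ‖c‖ (1 / 2) with hn
      have hm2 : (1 / 2 : ℝ) ≤ m := le_max_right _ _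
      have hn2 : (1 / 2 : ℝ) ≤ n := le_max_right _ _
      have hmn : |m - n| ≤ dist b c := by
        have := abs_max_sub_max_le_max ‖b‖ (1 / 2) ‖c‖ (1 / 2)
        simp only [sub_self, abs_zero] at this
        exact this.trans (max_le hd dist_nonneg)
      have hcn : ‖c‖ ≤ n := le_max_left _ _
      have hm0 : 0 < m := by linarith
      have hn0 : 0 < n := by linarith
      have e : m⁻¹ • b - n⁻¹ • c = m⁻¹ • (b - c) + ((n - m) / (m * n)) • c := by
        have : (n - m) / (m * n) = m⁻¹ - n⁻¹ := by field_simp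
        rw [this, sub_smul, smul_sub]; abel
      rw [dist_eq_norm, e]
      have k1 : m⁻¹ ≤ 2 := by
        rw [inv_le_comm₀ hm0 (by norm_num)]; linarith
      calc _ ≤ ‖m⁻¹ • (b - c)‖ + ‖((n - m) / (m * n)) • c‖ := norm_add_le _ _
        _ = m⁻¹ * ‖b - c‖ + |m - n| * (m⁻¹ * (‖c‖ / n)) := by
            rw [norm_smul, norm_smul, Real.norm_eq_abs, Real.norm_eq_abs, abs_div,
              abs_of_pos (mul_pos hm0 hn0), abs_sub_comm n m, abs_of_pos (inv_pos.2 hm0)]
            field_simp
        _ ≤ 2 * dist b c + dist b c * (2 * 1) := by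
            rw [dist_eq_norm] at *
            gcongr
            rw [div_le_one hn0]; exact hcn
        _ = 4 * dist b c := by ring
  · rintro ⟨t, w⟩ ⟨ht, hp⟩
    simp only [HS, mem_ofPred_eq, mem_sphere, dist_zero_right, Prod.norm_def, Real.norm_eq_abs]
      at ht hp
    have h1 : t ≤ 1 := by
      have := le_max_left |t| ‖w‖
      rw [hp] at this
      exact (le_abs_self t).trans this
    have h2 : ‖w‖ ≤ 1 := by
      have := le_max_right |t| ‖w‖
      rwa [hp] at this
    have h3 : |1 - t / 2| = 1 - t / 2 := abs_of_nonneg (by linarith)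
    simp only [norm_smul, Real.norm_eq_abs, h3, smul_smul]
    rw [abs_of_nonneg ht] at hp
    rcases max_choice t ‖w‖ with h | h
    · rw [h] at hp
      subst hp
      have : (1 - 1 / 2) * ‖w‖ ≤ 1 / 2 := by linarith
      ext1
      · simp only
        rw [min_eq_left]; linarith
      · simp only
        rw [max_eq_right this]
        norm_num
    · rw [h] at hp
      rw [hp]
      ext1
      · simp only
        rw [min_eq_right] <;> linarith
      · simp only
        rw [mul_one, max_eq_left (by linarith), inv_mul_cancel₀ (by linarith), one_smul]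
  · intro b hb
    simp only [mem_closedBall, dist_zero_right] at hb
    simp only [smul_smul]
    rcases le_total ‖b‖ (1 / 2) with h | h
    · have e1 : min 1 (2 - 2 * ‖b‖) = 1 := min_eq_left (by linarith)
      have e2 : max ‖b‖ (1 / 2) = 1 / 2 := max_eq_right h
      rw [e1, e2]
      norm_num
    · have e1 : min 1 (2 - 2 * ‖b‖) = 2 - 2 * ‖b‖ := min_eq_right (by linarith)
      have e2 : max ‖b‖ (1 / 2) = ‖b‖ := max_eq_left h
      have hb0 : ‖b‖ ≠ 0 := by
        intro h0; rw [h0] at h; norm_num at h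
      rw [e1, e2]
      have : (1 - (2 - 2 * ‖b‖) / 2) * ‖b‖⁻¹ = 1 := by
        field_simp; ring
      rw [this, one_smul]

omit [NormedSpace ℝ X] in
theorem univ_inter_sphere : (univ : Set X) ∩ sphere 0 1 = sphere 0 1 := univ_inter _

/-- `SB X` holds iff `X` and `[0, ∞) × X` are equivalent cones. -/
theorem SB_iff : SB X ↔ ConeEquiv (univ : Set X) (HS X) := by
  constructor
  · intro h
    refine ConeEquiv.ofSphere (fun _ _ _ _ => mem_univ _) HS_isCone (mem_univ _) ?_ ?_
    · simp [HS]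
    · rw [univ_inter_sphere]
      exact h.trans hemisphere.symm
  · intro h
    have := h.sphere
    rw [univ_inter_sphere] at this
    exact this.trans hemisphere

/-- The associativity isometry. -/
def assocIso (X Y : Type*) [NormedAddCommGroup X] [NormedSpace ℝ X] [NormedAddCommGroup Y]
    [NormedSpace ℝ Y] : ((ℝ × X) × Y) ≃ₗᵢ[ℝ] (ℝ × (X × Y)) where
  toFun p := (p.1.1, (p.1.2, p.2))
  invFun p := ((p.1, p.2.1), p.2.2)
  left_inv _ := rfl
  right_inv _ := rfl
  map_add' _ _ := rfl
  map_smul' _ _ := rfl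
  norm_map' p := by
    simp only [LinearEquiv.coe_mk, Prod.norm_def]
    exact (max_assoc _ _ _).symm

theorem SB_prod (h : SB X) : SB (X × Y) := by
  rw [SB_iff] at *
  have h1 : ConeEquiv ((univ : Set X) ×ˢ (univ : Set Y)) (HS X ×ˢ (univ : Set Y)) :=
    h.prod (ConeEquiv.refl _)
  have h2 : ConeEquiv (HS X ×ˢ (univ : Set Y)) (HS (X × Y)) := by
    refine ConeEquiv.ofIsometry (assocIso X Y) ?_
    rintro ⟨⟨t, x⟩, y⟩
    simp [HS, assocIso]
  rw [univ_prod_univ] at h1
  exact h1.trans h2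

theorem iso_key (e : X ≃L[ℝ] Z) : MapsTo (fun x => ‖e x‖⁻¹ • e x) (sphere (0 : X) 1)
        (sphere (0 : Z) 1) ∧
      UniformContinuousOn (fun x => ‖e x‖⁻¹ • e x) (sphere (0 : X) 1) ∧
      (∀ x ∈ sphere (0 : X) 1, ‖e.symm (‖e x‖⁻¹ • e x)‖⁻¹ • e.symm (‖e x‖⁻¹ • e x) = x) := by
  have hne : ∀ x ∈ sphere (0 : X) 1, e x ≠ 0 := by
    intro x hx h0
    have : x = 0 := by simpa using h0
    subst this
    simp at hx
  refine ⟨?_, ?_, ?_⟩
  · intro x hx
    simpa using norm_normalize (hne x hx)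
  · -- Lipschitz
    set K := ‖(e.symm : Z →L[ℝ] X)‖ with hK
    set L := ‖(e : X →L[ℝ] Z)‖ with hL
    refine uc_of_lip (2 * K * L) ?_
    intro x hx y hy
    have h1 := norm_normalize_sub_le (hne x hx) (hne y hy)
    rw [dist_eq_norm]
    refine h1.trans ?_
    have hx1 : ‖x‖ = 1 := by simpa using hx
    have h2 : 1 ≤ K * ‖e x‖ := by
      calc 1 = ‖x‖ := hx1.symm
        _ = ‖(e.symm : Z →L[ℝ] X) (e x)‖ := by simp
        _ ≤ K * ‖e x‖ := ContinuousLinearMap.le_opNorm _ _
    have h3 : ‖e x - e y‖ ≤ L * dist x y := by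
      rw [← map_sub, dist_eq_norm]
      exact ContinuousLinearMap.le_opNorm (e : X →L[ℝ] Z) (x - y)
    have hp : 0 < ‖e x‖ := norm_pos_iff.2 (hne x hx)
    rw [div_le_iff₀ hp]
    have hKn : 0 ≤ K := norm_nonneg _
    have hLn : 0 ≤ L := norm_nonneg _
    calc 2 * ‖e x - e y‖ ≤ 2 * (L * dist x y) := by gcongr
      _ = 2 * (L * dist x y) * 1 := by ring
      _ ≤ 2 * (L * dist x y) * (K * ‖e x‖) := by gcongr
      _ = 2 * K * L * dist x y * ‖e x‖ := by ring
  · intro x hx
    have hx1 : ‖x‖ = 1 := by simpa using hx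
    have hp : 0 < ‖e x‖ := norm_pos_iff.2 (hne x hx)
    simp only [map_smul, ContinuousLinearEquiv.symm_apply_apply, norm_smul, norm_inv, norm_norm,
      hx1, mul_one, inv_inv, smul_smul]
    rw [mul_inv_cancel₀ hp.ne', one_smul]

theorem sphere_equiv_of_iso (e : X ≃L[ℝ] Z) : UEquivOn (sphere (0 : X) 1) (sphere (0 : Z) 1) := by
  obtain ⟨a1, a2, a3⟩ := iso_key e
  obtain ⟨b1, b2, b3⟩ := iso_key e.symm
  exact ⟨_, _, a1, b1, a2, b2, a3, b3⟩

theorem SB_of_sphere_equiv (h : UEquivOn (sphere (0 : X) 1) (sphere (0 : Z) 1)) (hX : SB X) :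
    SB Z := by
  have h1 : ConeEquiv (univ : Set X) (univ : Set Z) := by
    refine ConeEquiv.ofSphere (fun _ _ _ _ => mem_univ _) (fun _ _ _ _ => mem_univ _)
      (mem_univ _) (mem_univ _) ?_
    rw [univ_inter_sphere, univ_inter_sphere]
    exact h
  have h2 := h1.ball
  rw [univ_inter, univ_inter] at h2
  exact (h.symm.trans hX).trans h2

theorem SB_of_iso (e : X ≃L[ℝ] Z) (hX : SB X) : SB Z :=
  SB_of_sphere_equiv (sphere_equiv_of_iso e) hX

theorem SB.toUniformEquiv (h : SB X) : Nonempty (sphere (0 : X) 1 ≃ᵤ closedBall (0 : X) 1) :=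
  UEquivOn.toUniformEquiv h

end Pool.Agent.helper32
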