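import Mathlib
import Pool.Agent.helper32.SB

/-!
The positive cone of `c₀` is equivalent to `c₀` by an explicit positively homogeneous
bi-Lipschitz map; hence `c₀` has property `SB`.
-/

set_option autoImplicit false

open Set Metric Filter Topology
open scoped ZeroAtInfty

namespace Pool.Agent.helper32

theorem tendsto_c0 (x : C₀(ℕ, ℝ)) : Tendsto (fun n => x n) atTop (𝓝 0) := by
  have := x.zero_at_infty'
  rwa [cocompact_eq_cofinite, Nat.cofinite_eq_atTop] at this

/-- Build an element of `c₀` from a null sequence. -/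
def mkC0 (f : ℕ → ℝ) (h : Tendsto f atTop (𝓝 0)) : C₀(ℕ, ℝ) where
  toFun := f
  continuous_toFun := continuous_of_discreteTopology
  zero_at_infty' := by rwa [cocompact_eq_cofinite, Nat.cofinite_eq_atTop]

@[simp] theorem mkC0_apply (f : ℕ → ℝ) (h : Tendsto f atTop (𝓝 0)) (n : ℕ) : mkC0 f h n = f n :=
  rfl

theorem abs_le_norm_c0 (x : C₀(ℕ, ℝ)) (n : ℕ) : |x n| ≤ ‖x‖ := by
  rw [← ZeroAtInftyContinuousMap.norm_toBCF_eq_norm]
  exact (x.toBCF).norm_coe_le_norm n

theorem norm_c0_le {x : C₀(ℕ, ℝ)} {C : ℝ} (hC : 0 ≤ C) (h : ∀ n, |x n| ≤ C) : ‖x‖ ≤ C := by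
  rw [← ZeroAtInftyContinuousMap.norm_toBCF_eq_norm]
  exact (x.toBCF).norm_le hC |>.2 h

theorem dist_coe_le_c0 (x y : C₀(ℕ, ℝ)) (n : ℕ) : |x n - y n| ≤ dist x y := by
  rw [dist_eq_norm]
  exact abs_le_norm_c0 (x - y) n

theorem dist_c0_le {x y : C₀(ℕ, ℝ)} {C : ℝ} (hC : 0 ≤ C) (h : ∀ n, |x n - y n| ≤ C) :
    dist x y ≤ C := by
  rw [dist_eq_norm]
  exact norm_c0_le hC h

/-- The positive cone of `c₀`. -/
def PC : Set C₀(ℕ, ℝ) := {x | ∀ n, 0 ≤ x n}

/-- The state sequence. -/
def zf (x : ℕ → ℝ) : ℕ → ℝ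
  | 0 => x 0
  | n + 1 => min (zf x n) (2 * x (n + 1))

/-- The output of one step. -/
noncomputable def Yf (z x : ℝ) : ℝ := min z (max (3 * z - 4 * x) (-x))

/-- The inverse of one step. -/
noncomputable def chi (y z : ℝ) : ℝ := max (-y) (max ((3 * z - y) / 4) (z / 2))

theorem step_z {z x : ℝ} (hz : 0 ≤ z) : max (Yf z x) (min z (2 * x)) = z := by
  unfold Yf
  rcases le_total z (2 * x) with h2 | h2
  · rw [min_eq_left h2]
    exact max_eq_right (min_le_left _ _)
  · have e1 : max (3 * z - 4 * x) (-x) = 3 * z - 4 * x := max_eq_left (by linarith)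
    have e2 : min z (3 * z - 4 * x) = z := min_eq_left (by linarith)
    rw [e1, e2, min_eq_right h2]
    exact max_eq_left h2

theorem step_x {z x : ℝ} (hz : 0 ≤ z) (hx : 0 ≤ x) : chi (Yf z x) (min z (2 * x)) = x := by
  unfold Yf chi
  rcases le_total z x with h1 | h1
  · have e1 : max (3 * z - 4 * x) (-x) = -x := max_eq_right (by linarith)
    have e2 : min z (-x) = -x := min_eq_right (by linarith)
    have e3 : min z (2 * x) = z := min_eq_left (by linarith)
    rw [e1, e2, e3, neg_neg]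
    apply max_eq_left
    apply max_le <;> linarith
  · rcases le_total z (2 * x) with h2 | h2
    · have e1 : max (3 * z - 4 * x) (-x) = 3 * z - 4 * x := max_eq_left (by linarith)
      have e2 : min z (3 * z - 4 * x) = 3 * z - 4 * x := min_eq_right (by linarith)
      have e3 : min z (2 * x) = z := min_eq_left (by linarith)
      rw [e1, e2, e3]
      have e4 : (3 * z - (3 * z - 4 * x)) / 4 = x := by ring
      rw [e4]
      have e5 : max x (z / 2) = x := max_eq_left (by linarith)
      rw [e5]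
      exact max_eq_right (by linarith)
    · have e1 : max (3 * z - 4 * x) (-x) = 3 * z - 4 * x := max_eq_left (by linarith)
      have e2 : min z (3 * z - 4 * x) = z := min_eq_left (by linarith)
      have e3 : min z (2 * x) = 2 * x := min_eq_right (by linarith)
      rw [e1, e2, e3]
      have e5 : max ((3 * (2 * x) - z) / 4) (2 * x / 2) = x := by
        rw [max_eq_right] <;> linarith
      rw [e5]
      exact max_eq_right (by linarith)

theorem inv_z {y z : ℝ} (hz : 0 ≤ z) : min (max y z) (2 * chi y z) = z := by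
  unfold chi
  rcases le_total z y with h1 | h1
  · have e2 : max ((3 * z - y) / 4) (z / 2) = z / 2 := max_eq_right (by linarith)
    have e3 : max (-y) (z / 2) = z / 2 := max_eq_right (by linarith)
    rw [max_eq_left h1, e2, e3]
    have : 2 * (z / 2) = z := by ring
    rw [this]
    exact min_eq_right h1
  · rw [max_eq_right h1]
    apply min_eq_left
    have := le_max_right (-y) (max ((3 * z - y) / 4) (z / 2))
    have := le_max_right ((3 * z - y) / 4) (z / 2)
    linarith

theorem inv_y {y z : ℝ} (hz : 0 ≤ z) : Yf (max y z) (chi y z) = y := by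
  unfold Yf chi
  rcases le_total z y with h1 | h1
  · have e2 : max ((3 * z - y) / 4) (z / 2) = z / 2 := max_eq_right (by linarith)
    have e3 : max (-y) (z / 2) = z / 2 := max_eq_right (by linarith)
    rw [max_eq_left h1, e2, e3]
    have e4 : max (3 * y - 4 * (z / 2)) (-(z / 2)) = 3 * y - 4 * (z / 2) :=
      max_eq_left (by linarith)
    rw [e4]
    exact min_eq_left (by linarith)
  · rw [max_eq_right h1]
    rcases le_total (-z) y with h2 | h2
    · have e2 : max ((3 * z - y) / 4) (z / 2) = (3 * z - y) / 4 := max_eq_left (by linarith)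
      have e3 : max (-y) ((3 * z - y) / 4) = (3 * z - y) / 4 := max_eq_right (by linarith)
      rw [e2, e3]
      have e4 : max (3 * z - 4 * ((3 * z - y) / 4)) (-((3 * z - y) / 4)) = y := by
        rw [max_eq_left] <;> linarith
      rw [e4]
      exact min_eq_right h1
    · have e3 : max (-y) (max ((3 * z - y) / 4) (z / 2)) = -y := by
        apply max_eq_left
        apply max_le <;> linarith
      rw [e3]
      have e4 : max (3 * z - 4 * -y) (- -y) = y := by
        rw [max_eq_right] <;> linarith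
      rw [e4]
      exact min_eq_right h1

theorem Yf_le {z x : ℝ} : Yf z x ≤ z := min_le_left _ _

theorem neg_le_Yf {z x : ℝ} (hz : 0 ≤ z) (hx : 0 ≤ x) : -x ≤ Yf z x :=
  le_min (by linarith) (le_max_right _ _)

theorem le_abs_step {z x : ℝ} (hz : 0 ≤ z) (hx : 0 ≤ x) :
    x ≤ max |Yf z x| (min z (2 * x)) := by
  unfold Yf
  rcases le_total z x with h1 | h1
  · have e1 : max (3 * z - 4 * x) (-x) = -x := max_eq_right (by linarith)
    have e2 : min z (-x) = -x := min_eq_right (by linarith)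
    rw [e1, e2, abs_neg, abs_of_nonneg hx]
    exact le_max_left _ _
  · refine le_trans ?_ (le_max_right _ _)
    exact le_min h1 (by linarith)

theorem Yf_lip (z x z' x' : ℝ) : |Yf z x - Yf z' x'| ≤ 3 * |z - z'| + 4 * |x - x'| := by
  unfold Yf
  refine (abs_min_sub_min_le_max _ _ _ _).trans (max_le ?_ ?_)
  · have := abs_nonneg (x - x')
    have := abs_nonneg (z - z')
    linarith
  · refine (abs_max_sub_max_le_max _ _ _ _).trans (max_le ?_ ?_)
    · have e : 3 * z - 4 * x - (3 * z' - 4 * x') = 3 * (z - z') - 4 * (x - x') := by ring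
      rw [e]
      refine (abs_sub _ _).trans ?_
      rw [abs_mul, abs_mul]; norm_num
    · have e : -x - -x' = -(x - x') := by ring
      rw [e, abs_neg]
      have := abs_nonneg (x - x')
      have := abs_nonneg (z - z')
      linarith

theorem chi_lip (y z y' z' : ℝ) : |chi y z - chi y' z'| ≤ |y - y'| + |z - z'| := by
  unfold chi
  have h1 := abs_nonneg (y - y')
  have h2 := abs_nonneg (z - z')
  refine (abs_max_sub_max_le_max _ _ _ _).trans (max_le ?_ ?_)
  · have e : -y - -y' = -(y - y') := by ring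
    rw [e, abs_neg]; linarith
  · refine (abs_max_sub_max_le_max _ _ _ _).trans (max_le ?_ ?_)
    · have e : (3 * z - y) / 4 - (3 * z' - y') / 4 = 3 / 4 * (z - z') - 1 / 4 * (y - y') := by ring
      rw [e]
      refine (abs_sub _ _).trans ?_
      rw [abs_mul, abs_mul, abs_of_pos (by norm_num : (0 : ℝ) < 3 / 4),
        abs_of_pos (by norm_num : (0 : ℝ) < 1 / 4)]
      linarith
    · have e : z / 2 - z' / 2 = 1 / 2 * (z - z') := by ring
      rw [e, abs_mul, abs_of_pos (by norm_num : (0 : ℝ) < 1 / 2)]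
      linarith

theorem zf_nonneg {x : ℕ → ℝ} (hx : ∀ n, 0 ≤ x n) (n : ℕ) : 0 ≤ zf x n := by
  induction n with
  | zero => exact hx 0
  | succ n ih => exact le_min ih (by have := hx (n + 1); linarith)

theorem zf_le {x : ℕ → ℝ} (hx : ∀ n, 0 ≤ x n) (n : ℕ) : zf x n ≤ 2 * x n := by
  cases n with
  | zero => have := hx 0; simp only [zf]; linarith
  | succ n => exact min_le_right _ _

theorem zf_succ_le (x : ℕ → ℝ) (n : ℕ) : zf x (n + 1) ≤ zf x n := min_le_left _ _

theorem zf_antitone (x : ℕ → ℝ) : Antitone (zf x) := antitone_nat_of_succ_le (zf_succ_le x)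

theorem zf_lip {x y : ℕ → ℝ} {d : ℝ} (hd : ∀ n, |x n - y n| ≤ d) (n : ℕ) :
    |zf x n - zf y n| ≤ 2 * d := by
  have hd0 : 0 ≤ d := (abs_nonneg _).trans (hd 0)
  induction n with
  | zero => exact (hd 0).trans (by linarith)
  | succ n ih =>
    refine (abs_min_sub_min_le_max _ _ _ _).trans (max_le ih ?_)
    rw [← mul_sub, abs_mul]
    norm_num
    exact hd _

theorem zf_smul (x : ℕ → ℝ) {r : ℝ} (hr : 0 ≤ r) (n : ℕ) :
    zf (fun k => r * x k) n = r * zf x n := by
  induction n with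
  | zero => rfl
  | succ n ih =>
    simp only [zf, ih]
    rw [mul_min_of_nonneg _ _ hr]
    ring_nf

theorem Yf_smul (z x : ℝ) {r : ℝ} (hr : 0 ≤ r) : Yf (r * z) (r * x) = r * Yf z x := by
  unfold Yf
  rw [mul_min_of_nonneg _ _ hr, mul_max_of_nonneg _ _ hr]
  ring_nf

theorem zf_tendsto {x : ℕ → ℝ} (hx : ∀ n, 0 ≤ x n) (h : Tendsto x atTop (𝓝 0)) :
    Tendsto (zf x) atTop (𝓝 0) := by
  refine squeeze_zero (zf_nonneg hx) (zf_le hx) ?_
  simpa using h.const_mul 2

/-- The output sequence. -/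
noncomputable def Fs (x : ℕ → ℝ) (n : ℕ) : ℝ := Yf (zf x n) (x (n + 1))

theorem Fs_abs_le {x : ℕ → ℝ} (hx : ∀ n, 0 ≤ x n) (n : ℕ) :
    |Fs x n| ≤ zf x n + x (n + 1) := by
  have h1 := zf_nonneg hx n
  have h2 := hx (n + 1)
  have h3 : Fs x n ≤ zf x n := Yf_le
  have h4 := neg_le_Yf h1 h2
  rw [abs_le]
  constructor
  · unfold Fs; linarith
  · linarith

theorem Fs_tendsto {x : ℕ → ℝ} (hx : ∀ n, 0 ≤ x n) (h : Tendsto x atTop (𝓝 0)) :
    Tendsto (Fs x) atTop (𝓝 0) := by
  refine squeeze_zero_norm (Fs_abs_le hx) ?_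
  have := (zf_tendsto hx h).add ((tendsto_add_atTop_iff_nat 1).2 h)
  simpa using this

open Classical in
/-- The map `c₀⁺ → c₀`. -/
noncomputable def FC (x : C₀(ℕ, ℝ)) : C₀(ℕ, ℝ) :=
  if h : x ∈ PC then mkC0 (Fs x) (Fs_tendsto h (tendsto_c0 x)) else 0

theorem FC_apply {x : C₀(ℕ, ℝ)} (h : x ∈ PC) (n : ℕ) : FC x n = Fs x n := by
  simp [FC, h]

/-- The backward state. -/
noncomputable def zb (y : ℕ → ℝ) (n : ℕ) : ℝ := ⨆ k, max (y (n + k)) 0

theorem zb_bdd (y : C₀(ℕ, ℝ)) (n : ℕ) : BddAbove (range fun k => max (y (n + k)) 0) := by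
  refine ⟨‖y‖, ?_⟩
  rintro _ ⟨k, rfl⟩
  exact max_le ((le_abs_self _).trans (abs_le_norm_c0 y _)) (norm_nonneg _)

theorem zb_nonneg (y : C₀(ℕ, ℝ)) (n : ℕ) : 0 ≤ zb y n :=
  (le_max_right (y (n + 0)) 0).trans (le_ciSup (zb_bdd y n) 0)

theorem le_zb (y : C₀(ℕ, ℝ)) {n m : ℕ} (h : n ≤ m) : y m ≤ zb y n := by
  obtain ⟨k, rfl⟩ := Nat.exists_eq_add_of_le h
  exact (le_max_left _ _).trans (le_ciSup (zb_bdd y n) k)

theorem zb_le {y : C₀(ℕ, ℝ)} {n : ℕ} {C : ℝ} (hC : 0 ≤ C) (h : ∀ m, n ≤ m → y m ≤ C) :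
    zb y n ≤ C := ciSup_le fun _ => max_le (h _ (Nat.le_add_right _ _)) hC

theorem zb_succ (y : C₀(ℕ, ℝ)) (n : ℕ) : zb y n = max (y n) (zb y (n + 1)) := by
  apply le_antisymm
  · apply zb_le ((zb_nonneg y (n + 1)).trans (le_max_right _ _))
    intro m hm
    rcases hm.eq_or_lt with rfl | hm
    · exact le_max_left _ _
    · exact (le_zb y hm).trans (le_max_right _ _)
  · apply max_le (le_zb y le_rfl)
    apply zb_le (zb_nonneg y n)
    intro m hm
    exact le_zb y (by omega)

theorem zb_lip (x y : C₀(ℕ, ℝ)) (n : ℕ) : |zb x n - zb y n| ≤ dist x y := by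
  have key : ∀ x y : C₀(ℕ, ℝ), zb x n ≤ zb y n + dist x y := by
    intro x y
    apply zb_le (add_nonneg (zb_nonneg y n) dist_nonneg)
    intro m hm
    have h1 := le_zb y hm
    have h2 := (le_abs_self _).trans (dist_coe_le_c0 x y m)
    linarith
  rw [abs_le]
  have h1 := key x y
  have h2 := key y x
  rw [dist_comm] at h2
  constructor <;> linarith

theorem zb_tendsto (y : C₀(ℕ, ℝ)) : Tendsto (zb y) atTop (𝓝 0) := by
  rw [Metric.tendsto_atTop]
  intro ε hε
  have h := tendsto_c0 y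
  rw [Metric.tendsto_atTop] at h
  obtain ⟨N, hN⟩ := h (ε / 2) (by positivity)
  refine ⟨N, fun n hn => ?_⟩
  rw [dist_zero_right, Real.norm_eq_abs, abs_of_nonneg (zb_nonneg y n)]
  refine lt_of_le_of_lt (zb_le (by positivity : (0 : ℝ) ≤ ε / 2) ?_) (by linarith)
  intro m hm
  have := hN m (hn.trans hm)
  rw [dist_zero_right, Real.norm_eq_abs] at this
  exact (le_abs_self _).trans this.le

/-- The inverse sequence. -/
noncomputable def Gs (y : ℕ → ℝ) : ℕ → ℝ
  | 0 => zb y 0
  | n + 1 => chi (y n) (zb y (n + 1))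

theorem chi_nonneg {y z : ℝ} (hz : 0 ≤ z) : 0 ≤ chi y z :=
  le_max_of_le_right (le_max_of_le_right (by positivity))

theorem Gs_nonneg (y : C₀(ℕ, ℝ)) (n : ℕ) : 0 ≤ Gs y n := by
  cases n with
  | zero => exact zb_nonneg y 0
  | succ n => exact chi_nonneg (zb_nonneg y (n + 1))

theorem Gs_tendsto (y : C₀(ℕ, ℝ)) : Tendsto (Gs y) atTop (𝓝 0) := by
  rw [← tendsto_add_atTop_iff_nat 1]
  have h1 : ∀ n, |Gs y (n + 1)| ≤ |y n| + |zb y (n + 1)| := by
    intro n
    have := chi_lip (y n) (zb y (n + 1)) 0 0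
    simpa [chi, Gs] using this
  refine squeeze_zero_norm h1 ?_
  have h2 := (tendsto_c0 y).abs
  have h3 := ((tendsto_add_atTop_iff_nat 1).2 (zb_tendsto y)).abs
  simpa using h2.add h3

/-- The inverse map `c₀ → c₀⁺`. -/
noncomputable def GC (y : C₀(ℕ, ℝ)) : C₀(ℕ, ℝ) := mkC0 (Gs y) (Gs_tendsto y)

theorem GC_mem (y : C₀(ℕ, ℝ)) : GC y ∈ PC := fun n => Gs_nonneg y n

theorem zf_GC (y : C₀(ℕ, ℝ)) (n : ℕ) : zf (GC y) n = zb y n := by
  induction n with
  | zero => rfl
  | succ n ih =>
    simp only [zf, ih]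
    rw [zb_succ y n]
    exact inv_z (zb_nonneg y (n + 1))

theorem FC_GC (y : C₀(ℕ, ℝ)) : FC (GC y) = y := by
  ext n
  rw [FC_apply (GC_mem y)]
  unfold Fs
  rw [zf_GC, zb_succ y n]
  exact inv_y (zb_nonneg y (n + 1))

theorem zb_FC {x : C₀(ℕ, ℝ)} (h : x ∈ PC) (n : ℕ) : zb (FC x) n = zf x n := by
  apply le_antisymm
  · apply zb_le (zf_nonneg h n)
    intro m hm
    rw [FC_apply h]
    exact Yf_le.trans (zf_antitone x hm)
  · have key : ∀ k, zf x n ≤ max (zb (FC x) n) (zf x (n + k)) := by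
      intro k
      induction k with
      | zero => exact le_max_right _ _
      | succ k ih =>
        refine ih.trans (max_le (le_max_left _ _) ?_)
        have e := step_z (x := x (n + k + 1)) (zf_nonneg h (n + k))
        have e2 : zf x (n + k) = max (FC x (n + k)) (zf x (n + k + 1)) := by
          rw [FC_apply h]
          exact e.symm
        rw [e2]
        exact max_le_max (le_zb _ (Nat.le_add_right _ _)) le_rfl
    have lim : Tendsto (fun k => max (zb (FC x) n) (zf x (n + k))) atTop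
        (𝓝 (max (zb (FC x) n) 0)) := by
      refine Tendsto.max tendsto_const_nhds ?_
      have := zf_tendsto h (tendsto_c0 x)
      rw [← tendsto_add_atTop_iff_nat n] at this
      simpa [add_comm] using this
    have := ge_of_tendsto' lim key
    rwa [max_eq_left (zb_nonneg _ n)] at this

theorem GC_FC {x : C₀(ℕ, ℝ)} (h : x ∈ PC) : GC (FC x) = x := by
  ext n
  cases n with
  | zero =>
    change zb (FC x) 0 = x 0
    rw [zb_FC h]; rfl
  | succ n =>
    change chi (FC x n) (zb (FC x) (n + 1)) = x (n + 1)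
    rw [zb_FC h, FC_apply h]
    exact step_x (zf_nonneg h n) (h (n + 1))

theorem FC_norm {x : C₀(ℕ, ℝ)} (h : x ∈ PC) : ‖FC x‖ = ‖x‖ := by
  have hx : ∀ n, x n ≤ ‖x‖ := fun n => (le_abs_self _).trans (abs_le_norm_c0 x n)
  apply le_antisymm
  · apply norm_c0_le (norm_nonneg _)
    intro n
    rw [FC_apply h, abs_le]
    constructor
    · have := neg_le_Yf (zf_nonneg h n) (h (n + 1))
      have := hx (n + 1)
      unfold Fs; linarith
    · refine Yf_le.trans ((zf_antitone x (Nat.zero_le n)).trans (hx 0))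
  · have hz : ∀ n, zf x n ≤ ‖FC x‖ := by
      intro n
      rw [← zb_FC h]
      exact zb_le (norm_nonneg _) fun m _ => (le_abs_self _).trans (abs_le_norm_c0 _ m)
    apply norm_c0_le (norm_nonneg _)
    intro n
    rw [abs_of_nonneg (h n)]
    cases n with
    | zero => exact hz 0
    | succ n =>
      refine (le_abs_step (zf_nonneg h n) (h (n + 1))).trans (max_le ?_ (hz (n + 1)))
      have := abs_le_norm_c0 (FC x) n
      rwa [FC_apply h] at this

theorem FC_coneMap : ConeMap PC univ FC where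
  maps _ _ := mem_univ _
  homog x hx r hr := by
    have hrx : r • x ∈ PC := fun n => by
      simp only [ZeroAtInftyContinuousMap.smul_apply, smul_eq_mul]
      exact mul_nonneg hr (hx n)
    ext n
    rw [FC_apply hrx, ZeroAtInftyContinuousMap.smul_apply, FC_apply hx, smul_eq_mul]
    have e : (⇑(r • x) : ℕ → ℝ) = fun k => r * x k := by
      funext k; simp
    unfold Fs
    rw [e, zf_smul _ hr, Yf_smul _ _ hr]
  norm x hx := FC_norm hx
  uc := by
    refine uc_of_lip 10 ?_
    rintro x ⟨hx, -⟩ y ⟨hy, -⟩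
    apply dist_c0_le (by positivity)
    intro n
    rw [FC_apply hx, FC_apply hy]
    have h1 := zf_lip (dist_coe_le_c0 x y) n
    have h2 := dist_coe_le_c0 x y (n + 1)
    refine (Yf_lip _ _ _ _).trans ?_
    linarith

theorem GC_coneMap : ConeMap univ PC GC where
  maps y _ := GC_mem y
  homog y _ r hr := by
    have hr' : r • GC y ∈ PC := fun n => by
      simp only [ZeroAtInftyContinuousMap.smul_apply, smul_eq_mul]
      exact mul_nonneg hr (GC_mem y n)
    have e := FC_coneMap.homog (GC y) (GC_mem y) r hr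
    rw [FC_GC] at e
    rw [← e, GC_FC hr']
  norm y _ := by
    have := FC_norm (GC_mem y)
    rw [FC_GC] at this
    exact this.symm
  uc := by
    refine uc_of_lip 2 ?_
    rintro x - y -
    apply dist_c0_le (by positivity)
    intro n
    have hd : 0 ≤ dist x y := dist_nonneg
    cases n with
    | zero => exact (zb_lip x y 0).trans (by linarith)
    | succ n =>
      refine (chi_lip _ _ _ _).trans ?_
      have h1 := zb_lip x y (n + 1)
      have h2 := dist_coe_le_c0 x y n
      linarith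

theorem coneEquiv_PC : ConeEquiv PC (univ : Set C₀(ℕ, ℝ)) :=
  ⟨FC, GC, FC_coneMap, GC_coneMap, fun _ hx => GC_FC hx, fun y _ => FC_GC y⟩

/-- Removing the first coordinate of a null sequence. -/
def tailC0 (x : C₀(ℕ, ℝ)) : C₀(ℕ, ℝ) :=
  mkC0 (fun n => x (n + 1)) ((tendsto_add_atTop_iff_nat 1).2 (tendsto_c0 x))

/-- The sequence with first term `t` and tail `x`. -/
def consSeq (t : ℝ) (x : ℕ → ℝ) : ℕ → ℝ
  | 0 => t
  | n + 1 => x n

/-- Adding a first coordinate. -/
def consC0 (t : ℝ) (x : C₀(ℕ, ℝ)) : C₀(ℕ, ℝ) :=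
  mkC0 (consSeq t x) ((tendsto_add_atTop_iff_nat 1).1 (tendsto_c0 x))

/-- `c₀` is isometric to `ℝ × c₀`. -/
noncomputable def consIso : C₀(ℕ, ℝ) ≃ₗᵢ[ℝ] ℝ × C₀(ℕ, ℝ) where
  toFun x := (x 0, tailC0 x)
  invFun p := consC0 p.1 p.2
  left_inv x := by
    ext n
    cases n <;> rfl
  right_inv p := by
    ext
    · rfl
    · rfl
  map_add' x y := by
    ext
    · simp
    · simp [tailC0]
  map_smul' r x := by
    ext
    · simp
    · simp [tailC0]
  norm_map' x := by
    simp only [LinearEquiv.coe_mk, LinearMap.coe_mk, AddHom.coe_mk, Prod.norm_def]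
    apply le_antisymm
    · apply max_le (abs_le_norm_c0 x 0)
      exact norm_c0_le (norm_nonneg _) fun n => abs_le_norm_c0 x (n + 1)
    · apply norm_c0_le (le_max_of_le_right (norm_nonneg _))
      intro n
      cases n with
      | zero => exact le_max_left _ _
      | succ n => exact le_max_of_le_right (abs_le_norm_c0 (tailC0 x) n)

theorem coneEquiv_PC_cons : ConeEquiv PC ({t : ℝ | 0 ≤ t} ×ˢ PC) := by
  refine ConeEquiv.ofIsometry consIso ?_
  intro x
  constructor
  · intro h
    exact ⟨h 0, fun n => h (n + 1)⟩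
  · rintro ⟨h0, h1⟩ n
    cases n with
    | zero => exact h0
    | succ n => exact h1 n

theorem SB_c0 : SB C₀(ℕ, ℝ) := by
  rw [SB_iff]
  have h1 : ConeEquiv ({t : ℝ | 0 ≤ t} ×ˢ PC) (HS C₀(ℕ, ℝ)) := by
    have := (ConeEquiv.refl {t : ℝ | 0 ≤ t}).prod coneEquiv_PC
    have e : ({t : ℝ | 0 ≤ t} ×ˢ (univ : Set C₀(ℕ, ℝ))) = HS C₀(ℕ, ℝ) := by
      ext p; simp [HS]
    rwa [e] at this
  exact (coneEquiv_PC.symm.trans coneEquiv_PC_cons).trans h1

/-- Every Banach space with a complemented copy of `c₀` has its unit sphere uniformly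
homeomorphic to its unit ball. -/
theorem SB_of_c0_complemented {X Y : Type*} [NormedAddCommGroup X] [NormedSpace ℝ X]
    [NormedAddCommGroup Y] [NormedSpace ℝ Y] (e : X ≃L[ℝ] C₀(ℕ, ℝ) × Y) : SB X :=
  SB_of_iso e.symm (SB_prod SB_c0)

end Pool.Agent.helper32
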